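import Pool.Agent.TH707.EO.CircMain

/-!
# How many strings of an oracle have to be changed to make nonuniform `SC` and `NC` incomparable?

Relative to an oracle the circuits may have gates for the oracle; a gate with `j` inputs contributes
`j + 1` to the size and `⌊log₂ j⌋ + 1` to the depth, and `1` to the width of a layered circuit. An
adversary who knows the oracle `O` changes, for all large `n`, at most `g n` of the strings
of length at most `n`; the result is the oracle `A` (`Close g O A`).

* If `g` is not bounded by a polynomial, then every oracle `O` can be changed such that, relative to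
  `A`, nonuniform `SC` and nonuniform `NC` are incomparable; moreover, for every `b`, there is a
  language in `SC` without circuits of polynomial size and of depth at most `n ^ b`, and there is a
  language in `NC` without layered circuits of polynomial size and of width at most `n ^ b`.
* Otherwise there is an oracle `O` such that, relative to all these `A`, nonuniform `SC`, nonuniform
  `NC` and `P/poly` coincide.
-/

set_option autoImplicit false

namespace Pool.Agent.Results.MP_2af48a_lc.ChangesOfEveryOracle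

open Pool.Agent.NPC Pool.Agent.H620R2.Gauge Pool.Agent.TH707.DP Pool.Agent.TH707.EO
open Pool.Agent.H622R2.Ckt
open Pool.Agent.W900.CH (Close)
open Filter

theorem result (g : ℕ → ℝ) :
    ((¬ ∃ c : ℕ, ∀ᶠ n : ℕ in atTop, ∃ m ≥ n, g m ≤ (n : ℝ) ^ c) →
      ∀ O : Oracle, ∃ A : Oracle, Close g O A ∧
        (∃ L, InSC A L ∧ ¬ InNC A L) ∧ (∃ L, InNC A L ∧ ¬ InSC A L) ∧
        (∀ b : ℕ, ∃ L, InSC A L ∧ ∀ c : ℕ, ∃ᶠ n : ℕ in atTop, ∀ D : Circuit,
          Decides A L n D → D.size ≤ n ^ c → n ^ b < depth D) ∧
        ∀ b : ℕ, ∃ L, InNC A L ∧ ∀ c : ℕ, ∃ᶠ n : ℕ in atTop, ∀ E : LCircuit,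
          (∀ x : List Bool, x.length = n → (x ∈ L ↔ E.eval A x = true)) →
          E.size ≤ n ^ c → ¬ E.WidthLE (n ^ b)) ∧
    ((∃ c : ℕ, ∀ᶠ n : ℕ in atTop, ∃ m ≥ n, g m ≤ (n : ℝ) ^ c) →
      ∃ O : Oracle, ∀ A : Oracle, Close g O A →
        ∀ L, (InSC A L ↔ InPpoly A L) ∧ (InNC A L ↔ InPpoly A L)) := by
  refine ⟨fun hg O => ?_, fun hg => ?_⟩
  · obtain ⟨A, hA, h1, h2⟩ := many_SN hg O
    refine ⟨A, hA, ?_, ?_, fun b => ?_, fun b => ?_⟩
    · by_contra hc
      push Not at hc
      exact h1 (shallow_of hc)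
    · by_contra hc
      push Not at hc
      exact h2 (narrow_of hc)
    · by_contra hc
      refine h1 ⟨b, fun L hL => ?_⟩
      by_contra hn
      refine hc ⟨L, hL, fun c => ?_⟩
      intro he
      refine hn ⟨c, ?_⟩
      filter_upwards [he] with n hn'
      push Not at hn'
      obtain ⟨D, e1, e2, e3⟩ := hn'
      exact ⟨D, e2, e3, e1⟩
    · by_contra hc
      refine h2 ⟨b, fun L hL => ?_⟩
      by_contra hn
      refine hc ⟨L, hL, fun c => ?_⟩
      intro he
      refine hn ⟨c, ?_⟩
      filter_upwards [he] with n hn'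
      push Not at hn'
      obtain ⟨E, e1, e2, e3⟩ := hn'
      exact ⟨E, e2, e3, e1⟩
  · obtain ⟨O, hO⟩ := few_SN hg
    exact ⟨O, fun A hA L => ⟨⟨fun h => h.ppoly, fun h => (hO A hA L h).2⟩,
      ⟨fun h => h.ppoly, fun h => (hO A hA L h).1⟩⟩⟩

end Pool.Agent.Results.MP_2af48a_lc.ChangesOfEveryOracle
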