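import Pool.Agent.TH707.DP.SCNC

/-!
# The size of the set of the oracles relative to which nonuniform `SC` and `NC` coincide

Relative to an oracle the circuits may have gates for the oracle; a gate with `j` inputs contributes
`j + 1` to the size and `⌊log₂ j⌋ + 1` to the depth, and `1` to the width of a layered circuit. The
set of the oracles relative to which nonuniform `SC` and nonuniform `NC` coincide is a null set for
the gauge `f` if and only if for every `ε > 0` there are infinitely many `N` with
`f N ≤ 2 ^ ((log N) ^ ε)`. The same holds for all sets of oracles which contain those relative to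
which `P/poly` is contained in `SC` and in `NC`, and in which, for some `b`, all languages in `SC`
have circuits of polynomial size and of depth at most `n ^ b`, or all languages in `NC` have layered
circuits of polynomial size and of width at most `n ^ b`.
-/

set_option autoImplicit false

namespace Pool.Agent.Results.MP_2af48a_lc.GaugeThreshold

open Pool.Agent.NPC Pool.Agent.H620R2.Gauge Pool.Agent.TH707.DP
open Filter

theorem result (f : ℕ → ℝ) :
    (Null f {A : Oracle | ∀ L, InSC A L ↔ InNC A L} ↔
      ∀ ε : ℝ, 0 < ε → ∃ᶠ N : ℕ in atTop, f N ≤ 2 ^ ((Real.logb 2 N) ^ ε)) ∧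
    ∀ S : Set Oracle, (∀ A : Oracle, (∀ L, InPpoly A L → InNC A L ∧ InSC A L) → A ∈ S) →
      (∀ A ∈ S, ShallowSC A ∨ NarrowNC A) →
      (Null f S ↔
        ∀ ε : ℝ, 0 < ε → ∃ᶠ N : ℕ in atTop, f N ≤ 2 ^ ((Real.logb 2 N) ^ ε)) :=
  ⟨gaugeS f _ (fun _ h L => ⟨fun hL => (h L hL.ppoly).1, fun hL => (h L hL.ppoly).2⟩)
      fun _ h => Or.inl (shallow_of fun L hL => (h L).1 hL),
    fun S h1 h2 => gaugeS f S h1 h2⟩

end Pool.Agent.Results.MP_2af48a_lc.GaugeThreshold
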