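import Pool.Agent.TH708.Nar.Fin
import Pool.Agent.TH822.J988

set_option autoImplicit false

/-!
# Polylogarithmic width against polylogarithmic depth for circuits of formal degree one

The typed bracket language consists of the words over two kinds of brackets and a neutral letter in
which the brackets are balanced and matched brackets have the same kind; a word of length `n` is
coded by `3 n` bits, and the bit `(i, 2)` is the kind of the bracket at position `i`.  We consider
circuits of AND and OR gates with fan-in two whose leaves are literals and constants, of formal
degree at most one in the input bits (the two sub-circuits feeding an AND gate read disjoint sets of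
input bits: decomposable circuits).

(1) The typed bracket language has such circuits of polynomial size and depth `O((log n)²)`.

(2) If such a circuit has size `S` and width `w` (in the sense of SC) then
`(log n)² ≤ 2^40 (log w + 1) (log S + 1)`; it suffices that the formal degree is at most one in the
kinds of the brackets in a set `W` of positions (then `n` is replaced by `|W|`), and that the circuit
is correct on the words that are balanced if kinds are forgotten.

(3) So there are no such circuits of polynomial size and polylogarithmic width: in this model
NC² is not contained in SC.

Idea of (2): for a random half `Y` of the positions there are brackets so that a circuit has to test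
the equality of the bits of `Y` with the bits of the complement, in some noncrossing matching; on
some accepted input all sub-circuits in use read a set of positions that is almost perfectly halved
by `Y`.  If the width is small these sets form, through the layers, a chain from the empty set to
the set of all positions with few candidates in each layer, and a multiscale union bound shows that
most `Y` halve no such chain.
-/

namespace Pool.Agent.Results.MP_2af48a_lc.NarrowBrackets

open Pool.Agent.TH708.Dec Pool.Agent.TH708.Nar

theorem result :
    (∃ K : ℕ, ∀ n : ℕ, ∃ C : Ckt (Fin n × Fin 3),
      C.size ≤ (n + 2) ^ K ∧ C.depth ≤ K * (Nat.log 2 (n + 2)) ^ 2 ∧ (∀ v, C.deg v ≤ 1) ∧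
        ∀ z, (C.eval z = true ↔ Dyck z)) ∧
    (∀ (n : ℕ) (C : Ckt (Fin n × Fin 3)) (W : Finset (Fin n)) (w : ℕ),
      (∀ z, Dyck (untyped z) → (C.eval z = true ↔ Dyck z)) → (∀ i ∈ W, C.deg (i, 2) ≤ 1) →
      Width C w →
        (Nat.log 2 W.card) ^ 2 ≤ 2 ^ 40 * ((Nat.log 2 w + 1) * (Nat.log 2 C.size + 1))) ∧
    ¬ ∃ c : ℕ, ∀ n : ℕ, ∃ C : Ckt (Fin n × Fin 3),
      (∀ z, C.eval z = true ↔ Dyck z) ∧ (∀ v, C.deg v ≤ 1) ∧ C.size ≤ n ^ c + c ∧
        Width C (Nat.log 2 n ^ c + c) :=
  ⟨Pool.Agent.TH822.J988.dyck_shallow,
    fun _ C W w hC hd hw => dyck_narrow C hC W hd w hw.layered, not_narrow⟩

end Pool.Agent.Results.MP_2af48a_lc.NarrowBrackets
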